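import Pool.Agent.U6.EK.Stm

/-!
# Project EK, package LEVY: the continuity theorem of Levy for uniform laws on finite sets
-/

set_option autoImplicit false

namespace Pool.Agent.U908.EK

open Finset Filter Topology MeasureTheory ProbabilityTheory
open Pool.Agent.U6.EK
open scoped ENNReal

/-- the uniform law of the values of `f` on `S` -/
noncomputable def nu (S : Finset ℕ) (f : ℕ → ℝ) : Measure ℝ :=
  ((S.card : ℝ≥0∞)⁻¹) • ∑ a ∈ S, Measure.dirac (f a)

theorem nu_prob {S : Finset ℕ} (hS : S.Nonempty) (f : ℕ → ℝ) : IsProbabilityMeasure (nu S f) := by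
  refine ⟨?_⟩
  unfold nu
  rw [Measure.smul_apply, Measure.finsetSum_apply]
  simp only [measure_univ, sum_const, nsmul_eq_mul, mul_one, smul_eq_mul]
  rw [ENNReal.inv_mul_cancel]
  · simpa using hS.ne_empty
  · simp

theorem nu_integral (S : Finset ℕ) (f : ℕ → ℝ) (g : ℝ → ℂ) :
    ∫ x, g x ∂(nu S f) = (∑ a ∈ S, g (f a)) / (S.card : ℂ) := by
  unfold nu
  rw [integral_smul_measure, integral_finsetSum_measure (fun a _ => integrable_dirac (by simp))]
  simp only [integral_dirac]
  rw [ENNReal.toReal_inv, ENNReal.toReal_natCast, Complex.real_smul, div_eq_inv_mul]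
  push_cast
  rfl

theorem nu_Iic {S : Finset ℕ} (f : ℕ → ℝ) (z : ℝ) :
    ((nu S f) (Set.Iic z)).toReal = ((S.filter fun a => f a ≤ z).card : ℝ) / S.card := by
  classical
  unfold nu
  rw [Measure.smul_apply, Measure.finsetSum_apply]
  simp only [Measure.dirac_apply' _ measurableSet_Iic, smul_eq_mul]
  have h1 : ∑ a ∈ S, (Set.Iic z).indicator (1 : ℝ → ℝ≥0∞) (f a) =
      ((S.filter fun a => f a ≤ z).card : ℝ≥0∞) := by
    rw [Finset.card_filter]
    push_cast
    refine Finset.sum_congr rfl fun a _ => ?_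
    rw [Set.indicator_apply]
    simp only [Set.mem_Iic, Pi.one_apply]
  rw [h1, ENNReal.toReal_mul, ENNReal.toReal_inv, ENNReal.toReal_natCast, ENNReal.toReal_natCast,
    div_eq_inv_mul]

theorem t_LEVY : T_LEVY := by
  classical
  intro Ω Y hΩ h z
  let ν : ℕ → ProbabilityMeasure ℝ := fun n => ⟨nu (Ω n) (Y n), nu_prob (hΩ n) (Y n)⟩
  let γ : ProbabilityMeasure ℝ := ⟨gaussianReal 0 1, inferInstance⟩
  have hν : Tendsto ν atTop (𝓝 γ) := by
    rw [ProbabilityMeasure.tendsto_iff_tendsto_charFun]
    intro u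
    have h1 : charFun (γ : Measure ℝ) u = Complex.exp (((-(u ^ 2) / 2 : ℝ) : ℂ)) := by
      change charFun (gaussianReal 0 1) u = _
      rw [charFun_gaussianReal]
      congr 1
      push_cast
      ring
    rw [h1]
    refine (h u).congr fun n => ?_
    change _ = charFun (nu (Ω n) (Y n)) u
    rw [charFun_apply_real, nu_integral]
    congr 1
    refine Finset.sum_congr rfl fun a _ => ?_
    congr 1
    push_cast
    ring
  have hna : NullSingletonClass (gaussianReal 0 1) := nullSingletonClass_gaussianReal one_ne_zero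
  have h2 := ProbabilityMeasure.tendsto_measure_of_null_frontier_of_tendsto hν (E := Set.Iic z) (by
    rw [frontier_Iic]
    apply NNReal.coe_injective
    change ((gaussianReal 0 1) {z}).toReal = _
    rw [measure_singleton]
    rfl)
  have h3 := (NNReal.continuous_coe.tendsto _).comp h2
  have h4 : Tendsto (fun n => ((nu (Ω n) (Y n)) (Set.Iic z)).toReal) atTop
      (𝓝 (((gaussianReal 0 1) (Set.Iic z)).toReal)) := h3
  unfold Phi
  refine h4.congr fun n => ?_
  rw [nu_Iic]

end Pool.Agent.U908.EK
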